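import Pool.Agent.TMX.Stmts2

/-!
# Squad TMX, row ABu: bad peak, the zero is between the two outer peaks
-/

set_option autoImplicit false

namespace Pool.Agent.TMX.H49

open Finset
open Pool.Agent.TMX
open Pool.Agent.Helper51_Max (I IsMax)
open Pool.Agent.Helper37_EM (var)

theorem aBu : ABu := by
  intro hR hMs hV hG N g M hM i₀ p₁ y z z' r p₃ hgeo hpy hzp hpN h1 h2 h0
  have hyz := hgeo.yz
  have hzz := hgeo.zz
  obtain ⟨-, hR2, -, -, hR5⟩ := hR N g M hM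
  obtain ⟨-, hMs2, -⟩ := hMs N g M hM
  obtain ⟨hV1, -⟩ := hV N g
  obtain ⟨α, hα, hαm⟩ := (Finset.Icc 0 p₁).exists_min_image g ⟨0, by simp⟩
  obtain ⟨ω, hω, hωm⟩ := (Finset.Icc p₃ N).exists_min_image g ⟨p₃, by simp [hpN]⟩
  rw [Finset.mem_Icc] at hα hω
  have e1 := hV1 α p₁ i₀ p₃ ω hα.2 h1 h2 hω.1 hω.2
  rw [h0] at e1
  have e2 := hR2 0 p₁ (g α) (Nat.zero_le _) (by omega)
    (fun i hi => hαm i (Finset.mem_Icc.2 ⟨Nat.zero_le _, hi⟩))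
  have e3 := hR5 p₃ (g ω) hpN (fun i hi hi' => hωm i (Finset.mem_Icc.2 ⟨hi, hi'⟩))
  have e4 := hG N g M hM y z z' r hgeo
  have e5 := hMs2 p₁ p₃ (by omega) hpN
  have hN : (0 : ℝ) ≤ N := Nat.cast_nonneg N
  have e6 := mul_le_mul_of_nonneg_left e1 hN
  nlinarith [e2, e3, e4, e5, e6]

end Pool.Agent.TMX.H49
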