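import Pool.Agent.TMX.Stmts5

/-!
# Squad TMX, row BGx: a bad peak is replaced by the right end of its plateau
-/

set_option autoImplicit false

namespace Pool.Agent.TMX.H49

open Finset
open Pool.Agent.TMX
open Pool.Agent.Helper51_Max (I IsMax)
open Pool.Agent.Helper37_EM (var)

theorem bGx : BGx := by
  classical
  intro tan gapB badP cMin N g M R hM hR s t y z y' r hgap hgeo hsy hyt hup hdn
  have hyz := hgeo.yz
  have hzy := hgeo.zz
  have hMy := hgeo.My
  have hMz := hgeo.Mz
  have hy'N : y' ≤ N := hyt.trans hgap.right.1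
  have htop : ∀ v, y ≤ v → v ≤ y' → M v ≤ M z := by
    intro v h1 h2
    rcases le_total v z with h | h
    · exact hup v z h1 h le_rfl
    · exact hdn z v le_rfl h h2
  set q := Nat.findGreatest (fun x => M x = M z) y' with hq
  have hqz : z ≤ q := Nat.le_findGreatest hzy.le rfl
  have hqy : q ≤ y' := Nat.findGreatest_le y'
  have hMq : M q = M z := Nat.findGreatest_spec (P := fun x => M x = M z) hzy.le rfl
  have hqg : ∀ x, q < x → x ≤ y' → M x ≠ M z := fun x h1 h2 h3 =>
    Nat.findGreatest_is_greatest (P := fun x => M x = M z) h1 h2 h3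
  have hqlt : q < y' := by
    rcases hqy.lt_or_eq with h | h
    · exact h
    · rw [h] at hMq
      linarith
  have hex : ∃ x, y ≤ x ∧ M x = M z := ⟨z, hyz.le, rfl⟩
  obtain ⟨hpy, hMp⟩ := Nat.find_spec hex
  have hpz : Nat.find hex ≤ z := Nat.find_min' hex ⟨hyz.le, rfl⟩
  have hpm : ∀ x, y ≤ x → x < Nat.find hex → M x ≠ M z := fun x h1 h2 h3 =>
    Nat.find_min hex h2 ⟨h1, h3⟩
  set p := Nat.find hex with hp
  have hplt : y < p := by
    rcases hpy.lt_or_eq with h | h
    · exact h
    · rw [← h] at hMp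
      linarith
  have hbad : ∀ i, y ≤ i → i ≤ y' → g i < M q :=
    badP N g M hM s t y q y' hgap hsy (by omega) hqlt hyt (by rw [hMq]; exact hMy)
      (by rw [hMq]; exact hMz) (fun v h1 h2 => by rw [hMq]; exact htop v h1 h2)
  have hdt : Dt N g M p q := by
    refine ⟨by omega, by omega, ?_, ?_, ?_⟩
    · intro x h1 h2
      refine ⟨?_, hbad x (by omega) (by omega)⟩
      rw [hMq]
      refine le_antisymm (htop x (by omega) (by omega)) ?_
      rcases le_total x z with h | h
      · have := hup p x hpy h1 h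
        linarith
      · have := hdn x q h h2 hqy
        linarith
    · intro s' hs'
      rw [hMq]
      exact lt_of_le_of_ne (htop s' (by omega) (by omega)) (hpm s' (by omega) (by omega))
    · intro hqN
      rw [hMq]
      exact lt_of_le_of_ne (htop (q + 1) (by omega) (by omega)) (hqg (q + 1) (by omega) (by omega))
  obtain ⟨hg, ⟨i, hi1, hi2, hi3, hi4⟩, ⟨j, hj1, hj2, hj3, hj4⟩⟩ :=
    gapB tan N g M hM y q y' (R q) (by omega) hqlt hy'N (by rw [hMq]; exact hMy)
      (by rw [hMq]; exact hMz) (hR p q hdt) hbad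
  obtain ⟨c, hc1, hc2, hc3, hc4, hc5⟩ := cMin N g M hM y q y' (R q) hg
  exact ⟨p, q, c, i, j, hMq, hdt, ⟨hg, fun v h1 h2 => by rw [hMq]; exact htop v h1 h2, hc1, hc2,
    hc3, hc4, hc5, hi1, hi2, hi3, hi4, hj1, hj2, hj3, hj4⟩⟩

end Pool.Agent.TMX.H49
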