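import Pool.Agent.TMX.Stmts3

/-!
# Squad TMX, row BadP: local maxima inside a gap are bad
-/

set_option autoImplicit false

namespace Pool.Agent.TMX.H49

open Finset
open Pool.Agent.TMX
open Pool.Agent.Helper51_Max (I IsMax)
open Pool.Agent.Helper37_EM (var)

theorem badP : BadP := by
  intro N g M hM p p' a z b hgap hpa haz hzb hbp hMa hMb hmax i hai hib
  by_contra h
  push Not at h
  have hbN : b ≤ N := hbp.trans hgap.right.1
  have hiN : i ≤ N := hib.trans hbN
  have h1 := Pool.Agent.Helper37_EM.g_le hM hiN
  have h2 := hmax i hai hib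
  have h3 : M i = M z := le_antisymm h2 (h.trans h1)
  have hia : i ≠ a := by
    rintro rfl
    linarith
  have hib' : i ≠ b := by
    rintro rfl
    linarith
  refine hgap.none i (by omega) (by omega) ⟨hiN, by linarith, a, b, hai, hib, hbN,
    Or.inr (by linarith), Or.inr (by linarith), fun v hv hv' => ?_⟩
  have := hmax v hv hv'
  linarith

end Pool.Agent.TMX.H49
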