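import Pool.Agent.TMX.Stmts3

/-!
# Squad TMX, rows Fin1, Fin2: the zero of `g`
-/

set_option autoImplicit false

namespace Pool.Agent.TMX.H49

open Finset
open Pool.Agent.TMX
open Pool.Agent.Helper51_Max (I IsMax)
open Pool.Agent.Helper37_EM (var var_add var_anti var_mono abs_le_var)

theorem fin_var_nonneg (u : ℕ → ℝ) (a b : ℕ) : 0 ≤ var u a b :=
  Finset.sum_nonneg fun _ _ => abs_nonneg _

theorem fin1 : Fin1 := by
  intro hMs N g M hM pl i₀ hpl hdn h1 h2 h0 hind
  obtain ⟨hS1, -, -⟩ := hMs N g M hM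
  have hplN : pl ≤ N := hpl.1
  have hN : (0 : ℝ) ≤ N := Nat.cast_nonneg N
  have e1 : var M 0 N = var M 0 pl + var M pl N := var_add (Nat.zero_le _) hplN
  have e2 : var M pl N = M pl - M N :=
    var_anti hplN fun i hi hi' => hdn i (i + 1) hi (by omega) (by omega)
  have e3 : M pl ≤ g pl := hpl.2.1
  have e4 : var g 0 N = var g 0 pl + var g pl N := var_add (Nat.zero_le _) hplN
  have e5 : var g pl N = var g pl i₀ + var g i₀ N := var_add h1 h2
  have e6 := abs_le_var g h1
  have e7 := le_abs_self (g pl - g i₀)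
  have e8 := fin_var_nonneg g i₀ N
  have e9 := hS1 N le_rfl
  have e10 : ∑ i ∈ range pl, g i + g pl ≤ ∑ i ∈ range (N + 1), g i := by
    rw [← sum_range_succ]
    exact sum_le_sum_of_subset_of_nonneg (range_subset_range.2 (by omega))
      fun i _ _ => hM.nonneg i
  have e11 : g pl ≤ var g pl N := by
    rw [h0] at e6 e7
    linarith
  have e12 := mul_le_mul_of_nonneg_left e11 hN
  have e13 := mul_le_mul_of_nonneg_left e3 (by linarith : (0 : ℝ) ≤ (N : ℝ) + 1)
  rw [e1, e2, e4]
  nlinarith [e9, e10, e12, e13, hind]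

theorem fin2 : Fin2 := by
  intro N g M hM p p' i₀ hgap hok h1 h2 h0 hA hB
  have hp'N : p' ≤ N := hgap.right.1
  have hpp := hgap.lt
  have hN : (0 : ℝ) ≤ N := Nat.cast_nonneg N
  have e1 : var M 0 N = var M 0 p + var M p N := var_add (Nat.zero_le _) (by omega)
  have e2 : var M p N = var M p p' + var M p' N := var_add hpp.le hp'N
  have e3 : var g 0 N = var g 0 p + var g p N := var_add (Nat.zero_le _) (by omega)
  have e4 : var g p N = var g p p' + var g p' N := var_add hpp.le hp'N
  have e5 : var g p p' = var g p i₀ + var g i₀ p' := var_add h1 h2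
  have e6 := abs_le_var g h1
  have e7 := le_abs_self (g p - g i₀)
  have e8 := abs_le_var g h2
  have e9 := neg_abs_le (g i₀ - g p')
  have e10 := hok.iii
  have e11 : Qv g M p p' = (g p + g p' - var M p p') / 2 := rfl
  rw [h0] at e6 e7 e8 e9
  have e12 : ∑ i ∈ range p, g i + (g p + (g p' + ∑ i ∈ Ioc p' N, g i)) ≤
      ∑ i ∈ range (N + 1), g i := by
    have s1 : ∑ i ∈ Ioc p' N, g i + g p' = ∑ i ∈ Icc p' N, g i := by
      have h3 : Icc p' N = insert p' (Ioc p' N) := by
        ext x
        rw [mem_insert, mem_Icc, mem_Ioc]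
        omega
      have h4 : p' ∉ Ioc p' N := by
        rw [mem_Ioc]
        omega
      rw [h3, sum_insert h4]
      ring
    have s2 : ∑ i ∈ range p, g i + g p = ∑ i ∈ range (p + 1), g i := (sum_range_succ _ _).symm
    have hd : Disjoint (range (p + 1)) (Icc p' N) := by
      rw [disjoint_left]
      intro x hx hx'
      rw [mem_range] at hx
      rw [mem_Icc] at hx'
      omega
    have s3 : ∑ i ∈ range (p + 1) ∪ Icc p' N, g i ≤ ∑ i ∈ range (N + 1), g i := by
      refine sum_le_sum_of_subset_of_nonneg ?_ fun i _ _ => hM.nonneg i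
      intro x hx
      rw [mem_union, mem_range, mem_Icc] at hx
      rw [mem_range]
      omega
    rw [sum_union hd] at s3
    linarith
  have e13 : g p + g p' ≤ var g p p' := by linarith
  have e14 := mul_le_mul_of_nonneg_left e13 hN
  have e15 : ((N : ℝ) + 1) * var M p p' ≤ ((N : ℝ) + 1) * (g p + g p') -
      ∑ i ∈ range (N + 1), g i := by
    rw [e11] at e10
    linarith
  rw [e1, e2, e3, e4]
  nlinarith [e12, e14, e15, hA, hB]

end Pool.Agent.TMX.H49
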