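import Pool.Agent.TMX.Stmts

/-!
# Row GapI of squad TMX (MP_b61ad0_an): the inequality for two tangent balls
-/

set_option autoImplicit false

namespace Pool.Agent.TMX.H49

open Finset
open Pool.Agent.Helper51_Max (I IsMax card_I)
open Pool.Agent.TMX

theorem gapI : GapI := by
  intro N g M hM y z z' r u hyz hzz' hrz hzN hz hz' hyz' hopt hu
  -- the three balls
  obtain ⟨p, hp⟩ : ∃ p, p = y + r - z := ⟨_, rfl⟩
  obtain ⟨q, hq⟩ : ∃ q, q = z + r - z' := ⟨_, rfl⟩
  have hT : I N y p = Icc (z - r) (2 * y + r - z) := by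
    unfold Pool.Agent.Helper51_Max.I
    congr 1 <;> omega
  have hT' : I N z' q = Icc (2 * z' - (z + r)) (z + r) := by
    unfold Pool.Agent.Helper51_Max.I
    congr 1 <;> omega
  have hZ : I N z r = Icc (z - r) (z + r) := by
    unfold Pool.Agent.Helper51_Max.I
    congr 1 <;> omega
  have cT : ((I N y p).card : ℝ) = 2 * ((y : ℝ) + r - z) + 1 := by
    have h1 : (I N y p).card = 2 * p + 1 := by rw [card_I]; omega
    have h2 : p + z = y + r := by omega
    have h3 : (p : ℝ) + z = y + r := by exact_mod_cast h2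
    rw [h1]
    push_cast
    linarith
  have cT' : ((I N z' q).card : ℝ) = 2 * ((z : ℝ) + r - z') + 1 := by
    have h1 : (I N z' q).card = 2 * q + 1 := by rw [card_I]; omega
    have h2 : q + z' = z + r := by omega
    have h3 : (q : ℝ) + z' = z + r := by exact_mod_cast h2
    rw [h1]
    push_cast
    linarith
  have cZ : ((I N z r).card : ℝ) = 2 * (r : ℝ) + 1 := by
    have h1 : (I N z r).card = 2 * r + 1 := by rw [card_I]; omega
    rw [h1]
    push_cast
    ring
  have s1 : ∑ i ∈ I N y p, (g i - u) ≤ (2 * ((y : ℝ) + r - z) + 1) * (M y - u) := by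
    have h1 := hM.le y (by omega) p
    rw [sum_sub_distrib, sum_const, nsmul_eq_mul, cT]
    rw [cT] at h1
    nlinarith
  have s2 : ∑ i ∈ I N z' q, (g i - u) ≤ (2 * ((z : ℝ) + r - z') + 1) * (M z' - u) := by
    have h1 := hM.le z' (by omega) q
    rw [sum_sub_distrib, sum_const, nsmul_eq_mul, cT']
    rw [cT'] at h1
    nlinarith
  have s3 : ∑ i ∈ I N z r, (g i - u) = (2 * (r : ℝ) + 1) * (M z - u) := by
    rw [sum_sub_distrib, sum_const, nsmul_eq_mul, ← hopt, cZ]
    ring
  have s4 : ∑ i ∈ I N z r, (g i - u) ≤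
      ∑ i ∈ I N y p, (g i - u) + ∑ i ∈ I N z' q, (g i - u) := by
    rw [← sum_union_inter]
    have h1 : I N y p ∪ I N z' q = I N z r := by
      rw [hT, hT', hZ]
      ext i
      simp only [mem_union, mem_Icc]
      omega
    rw [h1]
    have h2 : 0 ≤ ∑ i ∈ I N y p ∩ I N z' q, (g i - u) := by
      refine sum_nonneg fun i hi => ?_
      rw [hT, hT', mem_inter, mem_Icc, mem_Icc] at hi
      have := hu i (by omega) (by omega)
      linarith
    linarith
  linarith

end Pool.Agent.TMX.H49
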