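import Pool.Agent.TMX.Stmts3

/-!
# Squad TMX, row Refl2: reflection of good peaks, gaps, variations, sums
-/

set_option autoImplicit false

namespace Pool.Agent.TMX.H49

open Finset
open Pool.Agent.TMX
open Pool.Agent.Helper51_Max (I IsMax)
open Pool.Agent.Helper37_EM (var)

theorem refl_pk {N : ℕ} {g M : ℕ → ℝ} {p : ℕ} (h : Pk N g M p) :
    Pk N (fun i => g (N - i)) (fun i => M (N - i)) (N - p) := by
  obtain ⟨hpN, hMg, a, b, hap, hpb, hbN, ha, hb, hmax⟩ := h
  have e : ∀ x, x ≤ N → N - (N - x) = x := fun x hx => by omega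
  refine ⟨by omega, ?_, N - b, N - a, by omega, by omega, by omega, ?_, ?_, ?_⟩
  · show M (N - (N - p)) ≤ g (N - (N - p))
    rw [e p hpN]
    exact hMg
  · show N - b = 0 ∨ M (N - (N - b)) < M (N - (N - p))
    rw [e b hbN, e p hpN]
    rcases hb with hb | hb
    · left
      omega
    · exact Or.inr hb
  · show N - a = N ∨ M (N - (N - a)) < M (N - (N - p))
    rw [e a (by omega), e p hpN]
    rcases ha with ha | ha
    · left
      omega
    · exact Or.inr ha
  · intro v hv hv'
    show M (N - v) ≤ M (N - (N - p))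
    rw [e p hpN]
    exact hmax (N - v) (by omega) (by omega)

theorem refl_congr {N : ℕ} {g M g' M' : ℕ → ℝ} {p : ℕ} (hg : ∀ i, i ≤ N → g i = g' i)
    (hM : ∀ i, i ≤ N → M i = M' i) (h : Pk N g M p) : Pk N g' M' p := by
  obtain ⟨hpN, hMg, a, b, hap, hpb, hbN, ha, hb, hmax⟩ := h
  refine ⟨hpN, ?_, a, b, hap, hpb, hbN, ?_, ?_, ?_⟩
  · rw [← hg p hpN, ← hM p hpN]
    exact hMg
  · rw [← hM a (by omega), ← hM p hpN]
    exact ha
  · rw [← hM b hbN, ← hM p hpN]
    exact hb
  · intro v hv hv'
    rw [← hM v (by omega), ← hM p hpN]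
    exact hmax v hv hv'

theorem refl_pk' {N : ℕ} {g M : ℕ → ℝ} {v : ℕ}
    (h : Pk N (fun i => g (N - i)) (fun i => M (N - i)) v) : Pk N g M (N - v) := by
  have h1 := refl_pk h
  refine refl_congr (fun i hi => ?_) (fun i hi => ?_) h1
  · show g (N - (N - i)) = g i
    rw [show N - (N - i) = i by omega]
  · show M (N - (N - i)) = M i
    rw [show N - (N - i) = i by omega]

theorem refl2 : Refl2 := by
  intro N g M
  refine ⟨fun p hp => refl_pk hp, ?_, ?_, ?_⟩
  · intro p p' h
    have h1 := h.left.1
    have h2 := h.right.1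
    have h3 := h.lt
    refine ⟨refl_pk h.right, refl_pk h.left, by omega, ?_⟩
    intro v hv hv' hpk
    exact h.none (N - v) (by omega) (by omega) (refl_pk' hpk)
  · intro p hp
    unfold var
    refine Finset.sum_nbij' (fun i => N - 1 - i) (fun i => N - 1 - i) ?_ ?_ ?_ ?_ ?_
    · intro i hi
      rw [mem_Ico] at hi ⊢
      omega
    · intro i hi
      rw [mem_Ico] at hi ⊢
      omega
    · intro i hi
      rw [mem_Ico] at hi
      show N - 1 - (N - 1 - i) = i
      omega
    · intro i hi
      rw [mem_Ico] at hi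
      show N - 1 - (N - 1 - i) = i
      omega
    · intro i hi
      rw [mem_Ico] at hi
      show |g (N - i) - g (N - (i + 1))| = |g (N - 1 - i) - g (N - 1 - i + 1)|
      rw [abs_sub_comm, show N - (i + 1) = N - 1 - i by omega,
        show N - 1 - i + 1 = N - i by omega]
  · intro p hp
    refine Finset.sum_nbij' (fun i => N - i) (fun i => N - i) ?_ ?_ ?_ ?_ ?_
    · intro i hi
      rw [mem_range] at hi
      rw [mem_Ioc]
      omega
    · intro i hi
      rw [mem_Ioc] at hi
      rw [mem_range]
      omega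
    · intro i hi
      rw [mem_range] at hi
      show N - (N - i) = i
      omega
    · intro i hi
      rw [mem_Ioc] at hi
      show N - (N - i) = i
      omega
    · intro i hi
      rfl

end Pool.Agent.TMX.H49
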